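import Pool.Agent.K4H10.FM.Sys

set_option autoImplicit false
set_option linter.unusedSectionVars false

/-! # Systems of linear forms with simultaneously composite values: the final theorem (helper10) -/

namespace Pool.Agent.K4H10.FM

open Finset Filter Pool.Agent.Y831.RC Pool.Agent.H256R2.SC Topology

open scoped Classical

theorem ev_H (b θ ε₁ κ C k : ℝ) (hθ : 0 < θ) (hlim : κ * (b / θ) < (1 / 2 - ε₁) * θ) :
    ∀ᶠ l : ℝ in atTop, κ * (b * l / (θ * l + k)) * Real.exp (C / (θ * l + k)) ≤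
      (1 / 2 - ε₁) * (θ - 3 * Real.log l / l) := by
  have t1 : Tendsto (fun l : ℝ => k / l) atTop (𝓝 0) := tendsto_const_nhds.div_atTop tendsto_id
  have t2 : Tendsto (fun l : ℝ => b / (θ + k / l)) atTop (𝓝 (b / θ)) := by
    have : Tendsto (fun l : ℝ => θ + k / l) atTop (𝓝 (θ + 0)) := tendsto_const_nhds.add t1
    rw [add_zero] at this
    exact tendsto_const_nhds.div this hθ.ne'
  have t3 : Tendsto (fun l : ℝ => θ * l + k) atTop atTop :=
    tendsto_atTop_add_const_right _ _ (tendsto_id.const_mul_atTop hθ)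
  have t4 : Tendsto (fun l : ℝ => C / (θ * l + k)) atTop (𝓝 0) := tendsto_const_nhds.div_atTop t3
  have t5 : Tendsto (fun l : ℝ => Real.exp (C / (θ * l + k))) atTop (𝓝 1) := by
    have := (Real.continuous_exp.tendsto 0).comp t4
    rwa [Real.exp_zero] at this
  have t6 : Tendsto (fun l : ℝ => κ * (b / (θ + k / l)) * Real.exp (C / (θ * l + k))) atTop
      (𝓝 (κ * (b / θ) * 1)) := (tendsto_const_nhds.mul t2).mul t5
  have t7 : Tendsto (fun l : ℝ => Real.log l / l) atTop (𝓝 0) := by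
    have := Real.tendsto_pow_log_div_mul_add_atTop 1 0 1 one_ne_zero
    refine this.congr fun l => ?_
    simp
  have t8 : Tendsto (fun l : ℝ => (1 / 2 - ε₁) * (θ - 3 * (Real.log l / l))) atTop
      (𝓝 ((1 / 2 - ε₁) * (θ - 3 * 0))) :=
    tendsto_const_nhds.mul (tendsto_const_nhds.sub (tendsto_const_nhds.mul t7))
  rw [mul_one] at t6
  rw [mul_zero, sub_zero] at t8
  filter_upwards [t6.eventually_lt t8 hlim, eventually_gt_atTop (0:ℝ),
    t3.eventually_gt_atTop 0] with l h1 h2 h3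
  have e1 : b * l / (θ * l + k) = b / (θ + k / l) := by
    rw [show θ + k / l = (θ * l + k) / l by field_simp]
    rw [div_div_eq_mul_div]
  have e2 : 3 * Real.log l / l = 3 * (Real.log l / l) := by ring
  rw [e1, e2]
  exact h1.le

theorem ev_sys (b θ ε₁ κ C c₀ : ℝ) (hθ : 0 < θ) (hε : 0 < ε₁) (hc : 0 < c₀)
    (hlim : κ * (b / θ) < (1 / 2 - ε₁) * θ) : ∃ L₀ : ℝ, ∀ L : ℝ, L₀ ≤ L →
    1 ≤ L ∧ 960 ≤ ε₁ * (Real.log L) ^ 2 ∧ (Real.log L) ^ 3 ≤ L ^ (θ / 2) ∧
    2 ≤ c₀ * L ^ θ ∧ L ≤ Real.exp (ε₁ / 8 * L) ∧ 1 ≤ ε₁ * L / 16 ∧ 192 ≤ Real.log L ∧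
    4 ≤ L ^ θ ∧
    κ * (b * Real.log L / (θ * Real.log L + Real.log c₀)) *
      Real.exp (C / (θ * Real.log L + Real.log c₀)) ≤
      (1 / 2 - ε₁) * (θ - 3 * Real.log (Real.log L) / Real.log L) := by
  apply eventually_atTop.1
  have tl := Real.tendsto_log_atTop
  have tp : Tendsto (fun L : ℝ => L ^ θ) atTop atTop := tendsto_rpow_atTop hθ
  have h3 : ∀ᶠ L : ℝ in atTop, (Real.log L) ^ 3 ≤ L ^ (θ / 2) := by
    have := (isLittleO_log_rpow_rpow_atTop 3 (show (0:ℝ) < θ / 2 by linarith)).def one_pos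
    filter_upwards [this, eventually_ge_atTop (1:ℝ)] with L h h1
    rw [one_mul, Real.norm_eq_abs, Real.norm_eq_abs,
      abs_of_nonneg (Real.rpow_nonneg (Real.log_nonneg h1) _),
      abs_of_nonneg (Real.rpow_nonneg (by linarith) _)] at h
    have h5 : Real.log L ^ (3 : ℝ) = Real.log L ^ 3 := by
      rw [← Real.rpow_natCast]; norm_num
    rwa [h5] at h
  have h5 : ∀ᶠ L : ℝ in atTop, L ≤ Real.exp (ε₁ / 8 * L) := by
    have := (isLittleO_pow_exp_pos_mul_atTop 1 (show (0:ℝ) < ε₁ / 8 by positivity)).def one_pos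
    filter_upwards [this, eventually_ge_atTop (1:ℝ)] with L h h1
    rw [one_mul, Real.norm_eq_abs, Real.norm_eq_abs, pow_one, abs_of_nonneg (by linarith),
      abs_of_pos (Real.exp_pos _)] at h
    exact h
  filter_upwards [eventually_ge_atTop (1:ℝ),
    (tl.comp tendsto_id).eventually (((tendsto_pow_atTop (two_ne_zero)).const_mul_atTop
      hε).eventually_ge_atTop 960), h3, (tp.const_mul_atTop hc).eventually_ge_atTop 2, h5,
    (((tendsto_id).const_mul_atTop hε).atTop_div_const (show (0:ℝ) < 16 by norm_num)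
      ).eventually_ge_atTop 1, tl.eventually_ge_atTop 192, tp.eventually_ge_atTop 4,
    tl.eventually (ev_H b θ ε₁ κ C (Real.log c₀) hθ hlim)] with L g1 g2 g3 g4 g5 g6 g7 g8 g9
  exact ⟨g1, g2, g3, g4, g5, g6, g7, g8, g9⟩

theorem systems (b θ ε δ : ℝ) (hb1 : 1 < b) (hb2 : b ≤ 2) (hθ : 0 < θ) (hθ1 : θ ≤ 1)
    (hε : 0 < ε) (hδ : 0 < δ) : ∃ X₀ : ℝ, ∀ X : ℝ, X₀ ≤ X → ∀ F : Finset (ℕ × ℤ),
    (∀ f ∈ F, 1 ≤ f.1 ∧ (f.1 : ℝ) ≤ (Real.log X) ^ b) →
    (∀ f ∈ F, ∀ g ∈ F, f ≠ g → ((f.1 : ℤ) * g.2 - g.1 * f.2) ≠ 0 ∧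
      |(((f.1 : ℤ) * g.2 - g.1 * f.2 : ℤ) : ℝ)| ≤ (Real.log X) ^ b) →
    ∑ f ∈ F, (f.1 : ℝ) / f.1.totient ≤
      (θ ^ 2 / (2 * b) - ε) * (Real.log X * Real.log (Real.log X)) →
    ∀ M : ℝ, X * Real.exp (-(Real.log X) ^ θ) ≤ ((Starts F M X (X ^ δ)).ncard : ℝ) := by
  obtain ⟨C, hC0, hWR⟩ := WW_ratio
  set ε₁ : ℝ := min (ε / 2) (min (1 / 4) (8 * δ)) with hε₁
  have hε₁0 : 0 < ε₁ := by
    rw [hε₁]; exact lt_min (by linarith) (lt_min (by norm_num) (by linarith))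
  have hε₁a : ε₁ ≤ ε / 2 := min_le_left _ _
  have hε₁b : ε₁ ≤ 1 / 4 := (min_le_right _ _).trans (min_le_left _ _)
  have hε₁c : ε₁ ≤ 8 * δ := (min_le_right _ _).trans (min_le_right _ _)
  set c₀ : ℝ := ε₁ / 32 with hc₀
  have hc₀0 : 0 < c₀ := by positivity
  set κ : ℝ := max (θ ^ 2 / (2 * b) - ε) 0 with hκ
  have hκ0 : 0 ≤ κ := le_max_right _ _
  have hb0 : 0 < b := by linarith
  have hlim : κ * (b / θ) < (1 / 2 - ε₁) * θ := by
    rcases le_total (θ ^ 2 / (2 * b) - ε) 0 with h | h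
    · rw [hκ, max_eq_right h, zero_mul]
      exact mul_pos (by linarith) hθ
    · rw [hκ, max_eq_left h]
      have e1 : (θ ^ 2 / (2 * b) - ε) * (b / θ) = θ / 2 - ε * (b / θ) := by
        field_simp
      rw [e1]
      have e2 : 1 ≤ b / θ := by rw [one_le_div hθ]; linarith
      have e3 : ε * 1 ≤ ε * (b / θ) := mul_le_mul_of_nonneg_left e2 hε.le
      have e4 : ε₁ * θ ≤ ε₁ * 1 := mul_le_mul_of_nonneg_left hθ1 hε₁0.le
      linarith only [e3, e4, hε₁a, hε]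
  obtain ⟨X₁, hX₁⟩ := covv b hb1 hb2 ε₁ (θ / 2) hε₁0 hε₁b (by positivity)
  obtain ⟨L₀, hL₀⟩ := ev_sys b θ ε₁ κ C c₀ hθ hε₁0 hc₀0 hlim
  refine ⟨max X₁ (Real.exp L₀), fun X hX F h1 h2 h3 M => ?_⟩
  have hX1 : X₁ ≤ X := (le_max_left _ _).trans hX
  have hX2 : Real.exp L₀ ≤ X := (le_max_right _ _).trans hX
  have hX0 : 0 < X := lt_of_lt_of_le (Real.exp_pos _) hX2
  set L : ℝ := Real.log X with hL
  have hXL : X = Real.exp L := (Real.exp_log hX0).symm
  have hLL : L₀ ≤ L := by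
    rw [hL, ← Real.log_exp L₀]
    exact Real.log_le_log (Real.exp_pos _) hX2
  obtain ⟨g1, g2, g3, g4, g5, g6, g7, g8, g9⟩ := hL₀ L hLL
  set l : ℝ := Real.log L with hl
  have hL0 : 0 < L := by linarith
  have hl0 : 0 < l := by linarith
  have hT : 0 < L ^ θ := Real.rpow_pos_of_pos hL0 _
  have hTL : L ^ θ ≤ L := by
    calc L ^ θ ≤ L ^ (1:ℝ) := Real.rpow_le_rpow_of_exponent_le g1 hθ1
      _ = L := Real.rpow_one L
  have hc₀1 : c₀ ≤ 1 / 128 := by rw [hc₀]; linarith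
  -- the parameters
  set x : ℝ := c₀ * L ^ θ with hx
  have hx0 : 0 ≤ x := by positivity
  have hLb : L ≤ L ^ b := by
    calc L = L ^ (1:ℝ) := (Real.rpow_one L).symm
      _ ≤ L ^ b := Real.rpow_le_rpow_of_exponent_le g1 hb1.le
  have hxL : x ≤ L := by
    calc x ≤ 1 * L ^ θ := mul_le_mul_of_nonneg_right (by linarith) hT.le
      _ ≤ L := by rw [one_mul]; exact hTL
  have hxw : x ≤ L ^ b := hxL.trans hLb
  have hXδ : ∀ s : ℝ, X ^ s = Real.exp (s * L) := by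
    intro s
    rw [Real.rpow_def_of_pos hX0, mul_comm]
  have hxδ : x ≤ X ^ (ε₁ / 8) := by
    rw [hXδ]
    exact hxL.trans g5
  set v : ℝ := L ^ (1 - θ) * l ^ 3 with hv
  have hv1 : 1 ≤ L ^ (1 - θ) := Real.one_le_rpow g1 (by linarith)
  have hv0 : 0 < v := by positivity
  have hva : 960 * l ≤ ε₁ * v := by
    calc 960 * l ≤ (ε₁ * l ^ 2) * l := mul_le_mul_of_nonneg_right g2 hl0.le
      _ = 1 * (ε₁ * l ^ 3) := by ring
      _ ≤ L ^ (1 - θ) * (ε₁ * l ^ 3) := mul_le_mul_of_nonneg_right hv1 (by positivity)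
      _ = ε₁ * v := by rw [hv]; ring
  have hvb : v ≤ L ^ (1 - θ / 2) := by
    calc v ≤ L ^ (1 - θ) * L ^ (θ / 2) := mul_le_mul_of_nonneg_left g3 (by positivity)
      _ = L ^ (1 - θ / 2) := by rw [← Real.rpow_add hL0]; congr 1; ring
  have hcov := hX₁ X hX1 v hva hvb
  rw [← hL, ← hl] at hcov
  have hlogv : Real.log v = (1 - θ) * l + 3 * Real.log l := by
    rw [hv, Real.log_mul (by positivity) (by positivity), Real.log_rpow hL0, Real.log_pow]
    push_cast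
    ring
  have hφ : 1 - Real.log v / l = θ - 3 * Real.log l / l := by
    rw [hlogv]
    field_simp
    ring
  -- the primorial
  have hP : (primorial ⌊x⌋₊ : ℝ) ≤ Real.exp (2 * x) := by
    have e1 : (primorial ⌊x⌋₊ : ℝ) ≤ (4:ℝ) ^ ⌊x⌋₊ := by exact_mod_cast primorial_le_four_pow _
    refine e1.trans ?_
    have e2 : (4:ℝ) ≤ Real.exp 2 := by
      have := Real.add_one_le_exp (1:ℝ)
      have e3 : Real.exp 2 = Real.exp 1 * Real.exp 1 := by rw [← Real.exp_add]; norm_num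
      rw [e3]; nlinarith
    calc (4:ℝ) ^ ⌊x⌋₊ ≤ (Real.exp 2) ^ ⌊x⌋₊ := pow_le_pow_left₀ (by norm_num) e2 _
      _ = Real.exp (⌊x⌋₊ * 2) := by rw [← Real.exp_nat_mul]
      _ ≤ Real.exp (2 * x) := by
          apply Real.exp_le_exp.2
          have := Nat.floor_le hx0
          linarith only [this]
  have hPpos : (0:ℝ) < primorial ⌊x⌋₊ := by exact_mod_cast primorial_pos _
  have hXP : Real.exp (L - 2 * x) ≤ X / primorial ⌊x⌋₊ := by
    rw [le_div_iff₀ hPpos, Real.exp_sub, div_mul_eq_mul_div, div_le_iff₀ (Real.exp_pos _), ← hXL]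
    exact mul_le_mul_of_nonneg_left hP hX0.le
  have h2x : 2 * x ≤ ε₁ * L / 16 := by
    rw [hx, hc₀]
    have := mul_le_mul_of_nonneg_left hTL hε₁0.le
    linarith only [this]
  have hlen : X ^ (1 - ε₁ / 8) ≤ X / (primorial ⌊x⌋₊ : ℝ) - 1 := by
    have e1 : X ^ (1 - ε₁ / 8) = Real.exp (L - ε₁ * L / 8) := by
      rw [hXδ]; congr 1; ring
    have e2 : Real.exp (L - ε₁ * L / 16) = Real.exp (L - ε₁ * L / 8) * Real.exp (ε₁ * L / 16) := by
      rw [← Real.exp_add]; congr 1; ring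
    have e3 : Real.exp (L - ε₁ * L / 16) ≤ Real.exp (L - 2 * x) :=
      Real.exp_le_exp.2 (by linarith only [h2x])
    have e4 : (2:ℝ) ≤ Real.exp (ε₁ * L / 16) := by
      have := Real.add_one_le_exp (ε₁ * L / 16)
      linarith only [this, g6]
    have e5 : (1:ℝ) ≤ Real.exp (L - ε₁ * L / 8) := by
      apply Real.one_le_exp
      have e7 : ε₁ * L ≤ 1 / 4 * L := mul_le_mul_of_nonneg_right hε₁b hL0.le
      linarith only [e7, hL0]
    have e6 := mul_le_mul_of_nonneg_left e4 (Real.exp_pos (L - ε₁ * L / 8)).le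
    rw [e1]
    linarith only [e6, e5, e3, e2, hXP]
  -- the number of survivors
  have hWx : WW x * ∑ f ∈ F, (f.1 : ℝ) / f.1.totient ≤
      (1 / 2 - ε₁) * (1 - Real.log v / l) * (L * l * WW (L ^ b)) := by
    have hx2 : (2:ℝ) ≤ x := g4
    have hlogx : Real.log x = θ * l + Real.log c₀ := by
      rw [hx, Real.log_mul hc₀0.ne' hT.ne', Real.log_rpow hL0]
      ring
    have hlogx0 : 0 < Real.log x := Real.log_pos (by linarith)
    have hlogw : Real.log (L ^ b) = b * l := by rw [Real.log_rpow hL0]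
    have hr := hWR x (L ^ b) hx2 hxw
    rw [hlogw, hlogx] at hr
    have hWx0 := WW_pos x
    have hWw0 := WW_pos (L ^ b)
    have hLl : 0 ≤ L * l := by positivity
    have e0 : ∑ f ∈ F, (f.1 : ℝ) / f.1.totient ≤ κ * (L * l) :=
      h3.trans (mul_le_mul_of_nonneg_right (le_max_left _ _) hLl)
    calc WW x * ∑ f ∈ F, (f.1 : ℝ) / f.1.totient ≤ WW x * (κ * (L * l)) :=
          mul_le_mul_of_nonneg_left e0 hWx0.le
      _ ≤ (WW (L ^ b) * (b * l / (θ * l + Real.log c₀)) *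
            Real.exp (C / (θ * l + Real.log c₀))) * (κ * (L * l)) :=
          mul_le_mul_of_nonneg_right hr (by positivity)
      _ = (κ * (b * l / (θ * l + Real.log c₀)) * Real.exp (C / (θ * l + Real.log c₀))) *
            (L * l * WW (L ^ b)) := by ring
      _ ≤ ((1 / 2 - ε₁) * (θ - 3 * Real.log l / l)) * (L * l * WW (L ^ b)) :=
          mul_le_mul_of_nonneg_right g9 (by positivity)
      _ = _ := by rw [hφ]
  have hmain := sys_cnt hcov hx0 hxw hxδ F h1 h2 hWx M hlen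
  -- monotonicity in the bound for the primes
  have hmono : ((Starts F M X (X ^ (ε₁ / 8))).ncard : ℝ) ≤ ((Starts F M X (X ^ δ)).ncard : ℝ) := by
    have hX1' : 1 ≤ X := by rw [hXL]; exact Real.one_le_exp hL0.le
    have e1 : X ^ (ε₁ / 8) ≤ X ^ δ := Real.rpow_le_rpow_of_exponent_le hX1' (by linarith)
    have e2 : Starts F M X (X ^ (ε₁ / 8)) ⊆ Starts F M X (X ^ δ) := by
      intro n hn
      refine ⟨hn.1, hn.2.1, fun f hf => ?_⟩
      obtain ⟨p, hp, hpy, hpd⟩ := hn.2.2 f hf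
      exact ⟨p, hp, hpy.trans e1, hpd⟩
    exact_mod_cast Set.ncard_le_ncard e2 (Starts_finite F M X (X ^ δ))
  refine le_trans ?_ (hmain.trans hmono)
  -- the final numerical estimate
  have hτ : 48 * (L / v * l ^ 2) = 48 * L ^ θ / l := by
    have e1 : L = L ^ (1 - θ) * L ^ θ := by
      rw [← Real.rpow_add hL0, sub_add_cancel, Real.rpow_one]
    have e2 : L ^ (1 - θ) ≠ 0 := (Real.rpow_pos_of_pos hL0 _).ne'
    rw [hv]
    calc 48 * (L / (L ^ (1 - θ) * l ^ 3) * l ^ 2) =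
        48 * ((L ^ (1 - θ) * L ^ θ) / (L ^ (1 - θ) * l ^ 3) * l ^ 2) := by rw [← e1]
      _ = 48 * L ^ θ / l := by field_simp
  rw [hτ]
  have hτ2 : 48 * L ^ θ / l ≤ L ^ θ / 4 := by
    rw [div_le_iff₀ hl0]
    have := mul_le_mul_of_nonneg_left g7 hT.le
    linarith only [this]
  have h2x' : 2 * x ≤ L ^ θ / 4 := by
    rw [hx]
    have := mul_le_mul_of_nonneg_right hc₀1 hT.le
    linarith only [this, hT]
  have hhalf : Real.exp (L - 2 * x) / 2 ≤ X / primorial ⌊x⌋₊ - 1 := by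
    have e1 : (2:ℝ) ≤ Real.exp (L - 2 * x) := by
      have := Real.add_one_le_exp (L - 2 * x)
      have e3 : 16 ≤ ε₁ * L := by linarith
      have e4 : ε₁ * L ≤ 1 / 4 * L := mul_le_mul_of_nonneg_right hε₁b hL0.le
      linarith only [this, e3, e4, h2x]
    linarith only [e1, hXP]
  have h12 : Real.exp (-(L ^ θ / 4)) ≤ 1 / 2 := by
    have e1 : Real.exp (-(L ^ θ / 4)) ≤ Real.exp (-1) := Real.exp_le_exp.2 (by linarith)
    have e2 : Real.exp (-1) ≤ 1 / 2 := by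
      rw [Real.exp_neg, inv_eq_one_div]
      apply one_div_le_one_div_of_le (by norm_num)
      have := Real.add_one_le_exp (1:ℝ)
      linarith
    exact e1.trans e2
  calc X * Real.exp (-L ^ θ) = Real.exp (L - L ^ θ) := by
        rw [hXL, ← Real.exp_add, sub_eq_add_neg]
    _ ≤ Real.exp (L - 2 * x - L ^ θ / 4 - L ^ θ / 4) := Real.exp_le_exp.2 (by linarith)
    _ = Real.exp (L - 2 * x) * Real.exp (-(L ^ θ / 4)) * Real.exp (-(L ^ θ / 4)) := by
        rw [← Real.exp_add, ← Real.exp_add]; congr 1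
    _ ≤ Real.exp (L - 2 * x) * (1 / 2) * Real.exp (-(48 * L ^ θ / l)) := by
        apply mul_le_mul
        · exact mul_le_mul_of_nonneg_left h12 (Real.exp_pos _).le
        · exact Real.exp_le_exp.2 (by linarith)
        · exact (Real.exp_pos _).le
        · positivity
    _ = Real.exp (L - 2 * x) / 2 * Real.exp (-(48 * L ^ θ / l)) := by ring
    _ ≤ _ := mul_le_mul_of_nonneg_right hhalf (Real.exp_pos _).le

end Pool.Agent.K4H10.FM
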