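import Pool.Agent.Y831.RC4.CovF

set_option autoImplicit false
set_option linter.unusedSectionVars false

/-! # Greedy choice of residue classes for a system of linear forms (helper10) -/

namespace Pool.Agent.K4H10.FM

open Finset

open scoped Classical

theorem card_alive (p : ℕ) (hp : p.Prime) (a : ℕ) (b : ℤ) :
    (((range p).filter (fun r : ℕ => ¬ ((p : ℤ) ∣ a * (r : ℤ) + b))).card : ℝ) ≤
      p * (if p ∣ a then 1 else 1 - 1 / (p : ℝ)) := by
  have hp0 : (0 : ℝ) < p := by exact_mod_cast hp.pos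
  split_ifs with h
  · rw [mul_one]
    exact_mod_cast (card_filter_le _ _).trans (by rw [card_range])
  · obtain ⟨i, hi⟩ := Pool.Agent.H256R2.SC.LG.inv_exists hp h
    set r0 : ℕ := ((-b * i) % p).toNat with hr0
    have hpz : (0 : ℤ) < p := by exact_mod_cast hp.pos
    have h1 : ((r0 : ℕ) : ℤ) = (-b * i) % p := by
      rw [hr0, Int.toNat_of_nonneg (Int.emod_nonneg _ hpz.ne')]
    have h2 : r0 ∈ range p := by
      rw [mem_range]
      have := Int.emod_lt_of_pos (-b * i) hpz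
      rw [← h1] at this
      exact_mod_cast this
    have h3 : (p : ℤ) ∣ a * (r0 : ℤ) + b := by
      rw [h1]
      have e1 : (p : ℤ) ∣ (-b * i) - (-b * i) % p := Int.dvd_self_sub_emod
      have e2 := hi.mul_left b
      have e3 := e1.mul_left (a : ℤ)
      have e4 := dvd_add e3 e2
      have e5 : (a : ℤ) * ((-b * i) - (-b * i) % p) + b * (a * i - 1) = -(a * ((-b * i) % p) + b) := by
        ring
      rw [e5] at e4
      exact (dvd_neg).1 e4
    have h4 : (range p).filter (fun r : ℕ => ¬ ((p : ℤ) ∣ a * (r : ℤ) + b)) ⊆ (range p).erase r0 := by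
      intro r hr
      rw [mem_filter] at hr
      rw [mem_erase]
      refine ⟨?_, hr.1⟩
      rintro rfl
      exact hr.2 h3
    have h5 := card_le_card h4
    rw [card_erase_of_mem h2, card_range] at h5
    have h6 : (((range p).filter (fun r : ℕ => ¬ ((p : ℤ) ∣ a * (r : ℤ) + b))).card : ℝ) ≤
        ((p - 1 : ℕ) : ℝ) := by exact_mod_cast h5
    rw [Nat.cast_sub hp.one_lt.le] at h6
    refine h6.trans (le_of_eq ?_)
    field_simp
    push_cast
    ring

theorem greedy {κ : Type} [Fintype κ] (a : κ → ℕ) (b : κ → ℤ) (S : Finset ℕ)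
    (hS : ∀ p ∈ S, p.Prime) : ∀ u : κ → ℝ, (∀ k, 0 ≤ u k) → ∃ n0 : ℤ,
      ∑ k, (if ∀ p ∈ S, ¬ (((p : ℕ) : ℤ) ∣ a k * n0 + b k) then u k else 0) ≤
        ∑ k, u k * ∏ p ∈ S, (if p ∣ a k then 1 else 1 - 1 / (p : ℝ)) := by
  induction S using Finset.induction_on with
  | empty =>
    intro u _
    refine ⟨0, le_of_eq ?_⟩
    simp
  | insert p S hpS ih =>
    intro u hu
    have hp : p.Prime := hS p (mem_insert_self _ _)
    have hS' : ∀ q ∈ S, q.Prime := fun q hq => hS q (mem_insert_of_mem hq)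
    have hp0 : (0 : ℝ) < p := by exact_mod_cast hp.pos
    have hfac : ∀ (q : ℕ) (n : ℕ), q.Prime → (0 : ℝ) ≤ (if q ∣ n then 1 else 1 - 1 / (q : ℝ)) := by
      intro q n hq
      split_ifs
      · exact zero_le_one
      · have : (1 : ℝ) ≤ q := by exact_mod_cast hq.one_lt.le
        rw [sub_nonneg, div_le_one (by linarith)]
        exact this
    set u' : κ → ℝ := fun k => u k * ∏ q ∈ S, (if q ∣ a k then 1 else 1 - 1 / (q : ℝ)) with hu'
    have hu'0 : ∀ k, 0 ≤ u' k := fun k =>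
      mul_nonneg (hu k) (prod_nonneg fun q hq => hfac q _ (hS' q hq))
    -- choice of the class modulo p
    have hex : ∃ r ∈ range p, ∑ k, (if ¬ ((p : ℤ) ∣ a k * (r : ℤ) + b k) then u' k else 0) ≤
        ∑ k, u' k * (if p ∣ a k then 1 else 1 - 1 / (p : ℝ)) := by
      apply exists_le_of_sum_le (nonempty_range_iff.2 hp.ne_zero)
      rw [sum_comm, sum_const, card_range, nsmul_eq_mul, mul_sum]
      refine sum_le_sum fun k _ => ?_
      rw [← sum_filter, sum_const, nsmul_eq_mul]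
      calc _ ≤ (p * (if p ∣ a k then 1 else 1 - 1 / (p : ℝ))) * u' k :=
            mul_le_mul_of_nonneg_right (card_alive p hp (a k) (b k)) (hu'0 k)
        _ = _ := by ring
    obtain ⟨r, hr, hr2⟩ := hex
    obtain ⟨n1, hn1⟩ := ih hS' (fun k => if ¬ ((p : ℤ) ∣ a k * (r : ℤ) + b k) then u k else 0)
      (fun k => by
        split_ifs
        · exact le_rfl
        · exact hu k)
    -- chinese remainder
    set Q : ℕ := ∏ q ∈ S, q with hQ
    have hcop : Nat.Coprime p Q := by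
      rw [hQ]
      apply Nat.Coprime.prod_right
      intro q hq
      rw [Nat.coprime_primes hp (hS' q hq)]
      rintro rfl
      exact hpS hq
    obtain ⟨x, y, hxy⟩ := Nat.isCoprime_iff_coprime.2 hcop
    refine ⟨(r : ℤ) * (y * Q) + n1 * (x * p), ?_⟩
    set n0 : ℤ := (r : ℤ) * (y * Q) + n1 * (x * p) with hn0
    have c1 : ∀ k, ((p : ℤ) ∣ a k * n0 + b k ↔ (p : ℤ) ∣ a k * (r : ℤ) + b k) := by
      intro k
      have e1 : a k * n0 + b k = a k * (r : ℤ) + b k + p * (a k * (n1 * x - r * x)) := by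
        rw [hn0]
        have : y * (Q : ℤ) = 1 - x * p := by linarith
        rw [this]; ring
      rw [e1]
      exact ⟨fun h => (dvd_add_left (dvd_mul_right _ _)).1 h,
        fun h => (dvd_add_left (dvd_mul_right _ _)).2 h⟩
    have c2 : ∀ k, ∀ q ∈ S, (((q : ℕ) : ℤ) ∣ a k * n0 + b k ↔ ((q : ℕ) : ℤ) ∣ a k * n1 + b k) := by
      intro k q hq
      have hqQ : ((q : ℕ) : ℤ) ∣ Q := by exact_mod_cast dvd_prod_of_mem _ hq
      obtain ⟨t, ht⟩ := hqQ
      have e1 : a k * n0 + b k = a k * n1 + b k + q * (t * (a k * (r * y - n1 * y))) := by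
        rw [hn0]
        have h1 : x * (p : ℤ) = 1 - y * Q := by linarith
        rw [h1, ht]; ring
      rw [e1]
      exact ⟨fun h => (dvd_add_left (dvd_mul_right _ _)).1 h,
        fun h => (dvd_add_left (dvd_mul_right _ _)).2 h⟩
    have c3 : ∀ k, (if ∀ q ∈ insert p S, ¬ (((q : ℕ) : ℤ) ∣ a k * n0 + b k) then u k else 0) =
        (if ∀ q ∈ S, ¬ (((q : ℕ) : ℤ) ∣ a k * n1 + b k) then
          (if ¬ ((p : ℤ) ∣ a k * (r : ℤ) + b k) then u k else 0) else 0) := by
      intro k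
      have h1 : (∀ q ∈ insert p S, ¬ (((q : ℕ) : ℤ) ∣ a k * n0 + b k)) ↔
          (¬ ((p : ℤ) ∣ a k * (r : ℤ) + b k)) ∧ ∀ q ∈ S, ¬ (((q : ℕ) : ℤ) ∣ a k * n1 + b k) := by
        rw [forall_mem_insert, c1]
        refine and_congr Iff.rfl ?_
        refine forall_congr' fun q => ?_
        exact ⟨fun h hq => by rw [← c2 k q hq]; exact h hq, fun h hq => by rw [c2 k q hq]; exact h hq⟩
      rw [if_congr h1 rfl rfl]
      by_cases h2 : (p : ℤ) ∣ a k * (r : ℤ) + b k
      · simp [h2]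
      · simp [h2]
    rw [sum_congr rfl fun k _ => c3 k]
    refine hn1.trans ?_
    calc ∑ k, (if ¬ ((p : ℤ) ∣ a k * (r : ℤ) + b k) then u k else 0) *
          ∏ q ∈ S, (if q ∣ a k then 1 else 1 - 1 / (q : ℝ))
        = ∑ k, (if ¬ ((p : ℤ) ∣ a k * (r : ℤ) + b k) then u' k else 0) := by
          refine sum_congr rfl fun k _ => ?_
          rw [hu', ite_mul, zero_mul]
      _ ≤ _ := hr2
      _ = _ := by
          refine sum_congr rfl fun k _ => ?_
          rw [prod_insert hpS, hu']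
          ring

/-- the product over the primes not dividing `a` -/
theorem prod_bound (x : ℝ) (a : ℕ) (ha : 1 ≤ a) :
    ∏ p ∈ (Icc 1 ⌊x⌋₊).filter Nat.Prime, (if p ∣ a then (1:ℝ) else 1 - 1 / (p : ℝ)) ≤
      Pool.Agent.Y831.RC.WW x * ((a : ℝ) / a.totient) := by
  set S : Finset ℕ := (Icc 1 ⌊x⌋₊).filter Nat.Prime with hS
  have hpr : ∀ p ∈ S, p.Prime := fun p hp => (mem_filter.1 hp).2
  have hpos : ∀ p : ℕ, p.Prime → 0 < 1 - 1 / (p : ℝ) := by
    intro p hp
    have : (1 : ℝ) < p := by exact_mod_cast hp.one_lt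
    rw [sub_pos, div_lt_one (by linarith)]
    exact this
  have hle : ∀ p : ℕ, p.Prime → 1 - 1 / (p : ℝ) ≤ 1 := by
    intro p hp
    have : (0 : ℝ) < p := by exact_mod_cast hp.pos
    have : 0 < 1 / (p : ℝ) := by positivity
    linarith
  have ha0 : (0 : ℝ) < a := by exact_mod_cast ha
  have hφ : (0 : ℝ) < a.totient := by exact_mod_cast Nat.totient_pos.2 ha
  have h1 : (∏ p ∈ S, (if p ∣ a then (1:ℝ) else 1 - 1 / (p : ℝ))) *
      (∏ p ∈ S, (if p ∣ a then 1 - 1 / (p : ℝ) else 1)) = Pool.Agent.Y831.RC.WW x := by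
    rw [← prod_mul_distrib, Pool.Agent.Y831.RC.WW]
    refine prod_congr rfl fun p _ => ?_
    split_ifs <;> ring
  have h2 : (a.totient : ℝ) / a ≤ ∏ p ∈ S, (if p ∣ a then 1 - 1 / (p : ℝ) else 1) := by
    rw [← prod_filter]
    have h3 : (a.totient : ℝ) = a * ∏ p ∈ a.primeFactors, (1 - 1 / (p : ℝ)) := by
      have := Nat.totient_eq_mul_prod_factors a
      have h4 : ((a.totient : ℚ) : ℝ) = ((a * ∏ p ∈ a.primeFactors, (1 - (p : ℚ)⁻¹) : ℚ) : ℝ) := by
        rw [this]
      push_cast at h4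
      rw [h4]
      simp only [one_div]
    rw [h3, mul_div_assoc, mul_comm, div_mul_cancel₀ _ ha0.ne']
    have hsub : S.filter (fun p => p ∣ a) ⊆ a.primeFactors := by
      intro p hp
      rw [mem_filter] at hp
      exact Nat.mem_primeFactors.2 ⟨hpr p hp.1, hp.2, by omega⟩
    rw [← prod_sdiff hsub]
    have h5 : ∏ p ∈ a.primeFactors \ S.filter (fun p => p ∣ a), (1 - 1 / (p : ℝ)) ≤ 1 :=
      prod_le_one (fun p hp => (hpos p (Nat.prime_of_mem_primeFactors (mem_sdiff.1 hp).1)).le)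
        (fun p hp => hle p (Nat.prime_of_mem_primeFactors (mem_sdiff.1 hp).1))
    have h6 : 0 ≤ ∏ p ∈ S.filter (fun p => p ∣ a), (1 - 1 / (p : ℝ)) :=
      prod_nonneg fun p hp => (hpos p (hpr p (mem_filter.1 hp).1)).le
    calc _ ≤ 1 * ∏ p ∈ S.filter (fun p => p ∣ a), (1 - 1 / (p : ℝ)) :=
          mul_le_mul_of_nonneg_right h5 h6
      _ = _ := one_mul _
  have h7 : 0 ≤ ∏ p ∈ S, (if p ∣ a then (1:ℝ) else 1 - 1 / (p : ℝ)) :=
    prod_nonneg fun p hp => by split_ifs; exacts [zero_le_one, (hpos p (hpr p hp)).le]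
  have h8 : (∏ p ∈ S, (if p ∣ a then (1:ℝ) else 1 - 1 / (p : ℝ))) * ((a.totient : ℝ) / a) ≤
      Pool.Agent.Y831.RC.WW x := by
    rw [← h1]
    exact mul_le_mul_of_nonneg_left h2 h7
  rw [← le_div_iff₀ (by positivity)] at h8
  refine h8.trans (le_of_eq ?_)
  field_simp

end Pool.Agent.K4H10.FM
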