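import Pool.Agent.K4H10.FM.Greedy

set_option autoImplicit false
set_option linter.unusedSectionVars false

/-! # Systems of linear forms with simultaneously composite values: the arithmetic core (helper10) -/

namespace Pool.Agent.K4H10.FM

open Finset Filter Pool.Agent.Y831.RC Pool.Agent.H256R2.SC

open scoped Classical

/-- the integers `n ∈ (M, M + X]` such that each `a n + b`, `(a, b) ∈ F`, has a prime factor `p ≤ y` -/
def Starts (F : Finset (ℕ × ℤ)) (M X y : ℝ) : Set ℤ :=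
  {n | M < n ∧ (n : ℝ) ≤ M + X ∧
    ∀ f ∈ F, ∃ p : ℕ, p.Prime ∧ (p : ℝ) ≤ y ∧ (p : ℤ) ∣ f.1 * n + f.2}

theorem Starts_finite (F : Finset (ℕ × ℤ)) (M X y : ℝ) : (Starts F M X y).Finite := by
  apply (Set.finite_Icc ⌊M⌋ ⌊M + X⌋).subset
  intro n hn
  refine ⟨?_, ?_⟩
  · have := Int.floor_le M
    exact Int.cast_le.1 (this.trans hn.1.le)
  · exact Int.le_floor.2 hn.2.1

theorem sys_cnt {w X δ κ₀ τ x : ℝ} (hcov : CovK w X δ κ₀ τ) (hx0 : 0 ≤ x) (hxw : x ≤ w)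
    (hxδ : x ≤ X ^ δ) (F : Finset (ℕ × ℤ)) (h1 : ∀ f ∈ F, 1 ≤ f.1 ∧ (f.1 : ℝ) ≤ w)
    (h2 : ∀ f ∈ F, ∀ g ∈ F, f ≠ g → ((f.1 : ℤ) * g.2 - g.1 * f.2) ≠ 0 ∧
      |(((f.1 : ℤ) * g.2 - g.1 * f.2 : ℤ) : ℝ)| ≤ w)
    (hU : WW x * ∑ f ∈ F, (f.1 : ℝ) / f.1.totient ≤
      κ₀ * (Real.log X * Real.log (Real.log X) * WW w))
    (M : ℝ) (hlen : X ^ (1 - δ) ≤ X / (primorial ⌊x⌋₊ : ℝ) - 1) :
    (X / (primorial ⌊x⌋₊ : ℝ) - 1) * Real.exp (-τ) ≤ ((Starts F M X (X ^ δ)).ncard : ℝ) := by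
  set P : ℕ := primorial ⌊x⌋₊ with hPdef
  have hPpos : 0 < P := primorial_pos _
  have hPr : (0 : ℝ) < P := by exact_mod_cast hPpos
  have hfloor : ∀ p : ℕ, p ≤ ⌊x⌋₊ ↔ (p : ℝ) ≤ x := fun p => Nat.le_floor_iff hx0
  have hdvdP : ∀ p : ℕ, p.Prime → (p : ℝ) ≤ x → p ∣ P := fun p hp hpy =>
    (hp.dvd_primorial_iff).2 ((hfloor p).2 hpy)
  have hndvdP : ∀ p : ℕ, p.Prime → w < p → ¬ p ∣ P := by
    intro p hp hpX h
    have := (hfloor p).1 ((hp.dvd_primorial_iff).1 h)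
    linarith
  set S : Finset ℕ := (Icc 1 ⌊x⌋₊).filter Nat.Prime with hS
  have hSmem : ∀ p : ℕ, p ∈ S ↔ p.Prime ∧ (p : ℝ) ≤ x := by
    intro p
    rw [hS, mem_filter, mem_Icc, hfloor]
    exact ⟨fun h => ⟨h.2, h.1.2⟩, fun h => ⟨⟨h.1.one_lt.le, h.2⟩, h.1⟩⟩
  obtain ⟨n0, hn0⟩ := greedy (fun k : F => k.1.1) (fun k : F => k.1.2) S
    (fun p hp => ((hSmem p).1 hp).1) (fun _ => 1) (fun _ => zero_le_one)
  set U : Finset F := univ.filter (fun k : F => ∀ p ∈ S, ¬ (((p : ℕ) : ℤ) ∣ k.1.1 * n0 + k.1.2))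
    with hUdef
  have hUcard : (U.card : ℝ) ≤ κ₀ * (Real.log X * Real.log (Real.log X) * WW w) := by
    refine le_trans ?_ hU
    have e1 : (U.card : ℝ) = ∑ k : F, (if ∀ p ∈ S, ¬ (((p : ℕ) : ℤ) ∣ k.1.1 * n0 + k.1.2) then
        (1 : ℝ) else 0) := by
      rw [hUdef, ← sum_filter, sum_const, nsmul_eq_mul, mul_one]
    rw [e1]
    refine hn0.trans ?_
    rw [mul_sum, ← Finset.sum_coe_sort F (fun f => WW x * ((f.1 : ℝ) / f.1.totient))]
    refine sum_le_sum fun k _ => ?_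
    rw [one_mul]
    exact prod_bound x k.1.1 (h1 k.1 k.2).1
  -- inverses of a P
  have hinv : ∀ (p : ℕ) (k : F), ∃ i : ℤ, p.Prime → w < p →
      (p : ℤ) ∣ ((k.1.1 * P : ℕ) : ℤ) * i - 1 := by
    intro p k
    by_cases h : p.Prime ∧ w < p
    · have hnd : ¬ p ∣ k.1.1 * P := by
        intro hd
        rcases (Nat.Prime.dvd_mul h.1).1 hd with hd1 | hd1
        · have h3 := Nat.le_of_dvd (h1 k.1 k.2).1 hd1
          have h4 : (p : ℝ) ≤ k.1.1 := by exact_mod_cast h3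
          have := (h1 k.1 k.2).2
          linarith
        · exact hndvdP p h.1 h.2 hd1
      obtain ⟨i, hi⟩ := LG.inv_exists h.1 hnd
      exact ⟨i, fun _ _ => hi⟩
    · exact ⟨0, fun h3 h4 => absurd ⟨h3, h4⟩ h⟩
  choose ip hip using hinv
  set A' : ℤ := ⌊(M - n0) / P⌋ with hA'
  set B' : ℤ := ⌊(M + X - n0) / P⌋ with hB'
  have hBA : X / (P : ℝ) - 1 ≤ (B' : ℝ) - A' := by
    have e1 := Int.floor_le ((M - n0) / P)
    have e2 := Int.lt_floor_add_one ((M + X - n0) / P)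
    have e3 : (M + X - n0) / P = (M - n0) / P + X / P := by
      field_simp
      ring
    linarith
  have hcount := hcov U (by simpa using hUcard)
    (fun p k => -((k.1.1.1 : ℤ) * n0 + k.1.1.2) * ip p k.1) (by
      intro p hp hp1 _ k l hkl hdvd
      have hk := hip p k.1 hp hp1
      have hl := hip p l.1 hp hp1
      have hkl' : k.1.1 ≠ l.1.1 := fun h => hkl (Subtype.ext (Subtype.ext h))
      obtain ⟨d1, d2⟩ := h2 k.1.1 k.1.2 l.1.1 l.1.2 hkl'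
      have hd : (p : ℤ) ∣ (k.1.1.1 : ℤ) * l.1.1.2 - l.1.1.1 * k.1.1.2 := by
        have e1 := hdvd.mul_left ((k.1.1.1 : ℤ) * l.1.1.1 * P)
        have e2 := hk.mul_left (((k.1.1.1 : ℤ) * n0 + k.1.1.2) * l.1.1.1)
        have e3 := hl.mul_left (((l.1.1.1 : ℤ) * n0 + l.1.1.2) * k.1.1.1)
        have e4 := dvd_sub (dvd_add e1 e2) e3
        obtain ⟨c, hc⟩ := e4
        exact ⟨c, by rw [← hc]; push_cast; ring⟩
      apply d1
      apply Int.eq_zero_of_abs_lt_dvd hd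
      have h5 : (((|(k.1.1.1 : ℤ) * l.1.1.2 - l.1.1.1 * k.1.1.2| : ℤ)) : ℝ) < ((p : ℤ) : ℝ) := by
        rw [Int.cast_abs]
        exact lt_of_le_of_lt d2 (by exact_mod_cast hp1)
      exact_mod_cast h5)
    A' B' (hlen.trans hBA)
  set T : Finset ℤ := (Ioc A' B').filter (fun x : ℤ => ∀ k : U,
      ∃ p : ℕ, p.Prime ∧ w < p ∧ (p : ℝ) ≤ X ^ δ ∧
        (p : ℤ) ∣ x - -((k.1.1.1 : ℤ) * n0 + k.1.1.2) * ip p k.1) with hT
  have hsub : ((T.image (fun m : ℤ => n0 + P * m) : Finset ℤ) : Set ℤ) ⊆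
      Starts F M X (X ^ δ) := by
    intro n hn
    rw [Finset.mem_coe, Finset.mem_image] at hn
    obtain ⟨m, hm, rfl⟩ := hn
    rw [hT, Finset.mem_filter, Finset.mem_Ioc] at hm
    obtain ⟨⟨hmA, hmB⟩, hm⟩ := hm
    have hm1 : (M - n0) / P < m := by
      have := Int.lt_floor_add_one ((M - n0) / P)
      have h3 : ((⌊(M - n0) / P⌋ : ℤ) : ℝ) + 1 ≤ m := by exact_mod_cast hmA
      linarith
    have hm2 : (m : ℝ) ≤ (M + X - n0) / P := by
      have := Int.floor_le ((M + X - n0) / P)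
      have h3 : (m : ℝ) ≤ ((⌊(M + X - n0) / P⌋ : ℤ) : ℝ) := by exact_mod_cast hmB
      linarith
    rw [div_lt_iff₀ hPr] at hm1
    rw [le_div_iff₀ hPr] at hm2
    refine ⟨?_, ?_, ?_⟩
    · push_cast
      linarith
    · push_cast
      linarith
    · intro f hf
      by_cases hfU : (⟨f, hf⟩ : F) ∈ U
      · obtain ⟨p, hp, hp1, hp2, hp3⟩ := hm ⟨⟨f, hf⟩, hfU⟩
        refine ⟨p, hp, hp2, ?_⟩
        have e1 := hip p ⟨f, hf⟩ hp hp1
        have e2 := hp3.mul_left ((f.1 : ℤ) * P)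
        have e3 := e1.mul_left ((f.1 : ℤ) * n0 + f.2)
        have e4 := dvd_sub e2 e3
        obtain ⟨c, hc⟩ := e4
        exact ⟨c, by rw [← hc]; push_cast; ring⟩
      · have hfU' : ¬ ∀ p ∈ S, ¬ (((p : ℕ) : ℤ) ∣ f.1 * n0 + f.2) := fun h =>
          hfU (mem_filter.2 ⟨mem_univ _, h⟩)
        push Not at hfU'
        obtain ⟨p, hpS, hpd⟩ := hfU'
        obtain ⟨hp, hpx⟩ := (hSmem p).1 hpS
        refine ⟨p, hp, hpx.trans hxδ, ?_⟩
        have e1 : (p : ℤ) ∣ (P : ℤ) := by exact_mod_cast hdvdP p hp hpx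
        have e2 := dvd_add hpd (e1.mul_left ((f.1 : ℤ) * m))
        obtain ⟨c, hc⟩ := e2
        exact ⟨c, by rw [← hc]; ring⟩
  have hinj : (T.image (fun m : ℤ => n0 + P * m)).card = T.card := by
    apply Finset.card_image_of_injective
    intro m m' h
    have hP0 : (P : ℤ) ≠ 0 := by exact_mod_cast hPpos.ne'
    have h3 : (P : ℤ) * m = P * m' := by
      have : n0 + P * m = n0 + P * m' := h
      linarith
    exact mul_left_cancel₀ hP0 h3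
  have hcard : (T.card : ℝ) ≤ ((Starts F M X (X ^ δ)).ncard : ℝ) := by
    have h3 := Set.ncard_le_ncard hsub (Starts_finite F M X (X ^ δ))
    rw [Set.ncard_coe_finset, hinj] at h3
    exact_mod_cast h3
  refine le_trans ?_ (hcount.trans hcard)
  exact mul_le_mul_of_nonneg_right hBA (Real.exp_pos _).le

end Pool.Agent.K4H10.FM
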